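import Pool.Agent.helper96.PP2.Asm

/-!
# MP_655a6f_al: pro-p groups of cohomological dimension two that are linear of degree two

The definitions `ProP`, `H3Zero`, `Smooth`, `LC2`, `LC3`, `d2`, `d3` are in
`Pool/Agent/helper96/PP2/Coh.lean`.
-/

namespace Pool.Agent.Results.MP_655a6f_al.LinearDegreeTwo

open Pool.Agent.PP2

/-- Let `p` be an odd prime, `R` a profinite commutative ring, `G` a pro-`p` group with
`H^3(G, A) = 0` for all finite discrete `G`-modules `A` of `p`-power order (so in particular a
pro-`p` group of cohomological dimension at most two), and suppose that `G` has a continuous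
injective homomorphism to `GL_2(R)`. Then `G` is soluble, of derived length at most four. -/
theorem result (p : ℕ) (hp : p.Prime) (hp2 : p ≠ 2)
    (R : Type) [CommRing R] [TopologicalSpace R] [IsTopologicalRing R] [CompactSpace R]
    [T2Space R] [TotallyDisconnectedSpace R]
    (G : Type) [Group G] [TopologicalSpace G] [IsTopologicalGroup G] [CompactSpace G]
    [T2Space G] [TotallyDisconnectedSpace G]
    (hG : ProP p G) (hcd : H3Zero p G)
    (ρ : G →* Matrix.GeneralLinearGroup (Fin 2) R) (hρ : Continuous ρ)
    (hinj : Function.Injective ρ) :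
    derivedSeries G 4 = ⊥ :=
  a_FIN p R G ρ hp hp2 hG hcd hρ hinj

end Pool.Agent.Results.MP_655a6f_al.LinearDegreeTwo
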